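import Pool.Agent.L0h15.FC.Closure

/-!
# MP_e93a6a_ag: finite flat images, and schemes of dimension at most 2

`T.H X n i` is the group `H^i(X_et, ℤ^c(n))` of the arithmetic scheme `X`, and `T.Known` collects known
properties of these groups for `n ≤ 0`. `T.Arith P` says that `P` is a connected regular scheme which is
projective and flat over `ℤ`, `T.Geom P` that `P` is a connected smooth projective variety over a finite
field. `R` is a class of schemes for which Q1 is known, for example the rings of integers of number
fields, finite fields and curves over finite fields, products of curves over finite fields, and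
projective lines over rings of integers. `Generated T R` is the smallest class which contains `R` and is
closed under localisation, disjoint unions and images under finite flat morphisms. `Dominated T R X` says
that the components of maximal dimension of `X` are dominated by members of `R`.
-/

set_option autoImplicit false

namespace Pool.Agent.Results.MP_e93a6a_ag.DominatedSchemes

open Pool.Agent.L0h15.FC

theorem result (T : Theory) (hT : T.Known) (R : T.Sch → Prop)
    (hR : ∀ P n i, R P → n < 0 → FG (T.H P n i)) :
    -- Q1 for the schemes generated by `R`
    (∀ X, Generated T R X → ∀ n i, n < 0 → FG (T.H X n i)) ∧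
    -- if `R` contains the regular projective schemes of dimension at most 1
    ((∀ P, T.Arith P ∨ T.Geom P → T.dim P ≤ 1 → R P) →
      -- Q1 for all schemes of dimension at most 1
      (∀ X, T.dim X ≤ 1 → ∀ n i, n < 0 → FG (T.H X n i)) ∧
      -- and for all schemes of dimension at most 2 such that the components of dimension 2 are
      -- dominated by members of `R`
      ∀ X, T.dim X ≤ 2 → Dominated T R X → ∀ n i, n < 0 → FG (T.H X n i)) :=
  ⟨fun _ hX _ i hn => fg_of_generated hT hn (fun P hP i => hR P _ i hP hn) hX i,
    fun h1 => ⟨fun X hX _ i hn => fg_of_generated hT hn (fun P hP i => hR P _ i hP hn)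
      (generated_of_dim_one hT h1 X hX) i,
    fun X hX hdom _ i hn => fg_of_generated hT hn (fun P hP i => hR P _ i hP hn)
      (generated_of_dim_two hT h1 X hX hdom) i⟩⟩

end Pool.Agent.Results.MP_e93a6a_ag.DominatedSchemes
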