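import Pool.Agent.L0h15.FC.Main

/-!
# MP_e93a6a_ag: reduction to weight -1, regular projective schemes and degrees at most 3

`T.H X n i` is the group `H^i(X_et, ℤ^c(n))` of the arithmetic scheme `X`, and `T.Known` collects known
properties of these groups for `n ≤ 0`. `T.Arith P` says that `P` is a connected regular scheme which is
projective and flat over `ℤ`, `T.Geom P` that `P` is a connected smooth projective variety over a finite
field, and `T.Char X` that all points of `X` have positive residue characteristic.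
-/

set_option autoImplicit false

namespace Pool.Agent.Results.MP_e93a6a_ag.RegularProjective

open Pool.Agent.L0h15.FC

theorem result (T : Theory) (hT : T.Known) :
    -- Q1 (all arithmetic schemes, all weights `n < 0`, all degrees) is equivalent to finite generation
    -- in weight `-1` and degrees at most 3 for regular schemes projective and flat over `ℤ`, and to
    -- the vanishing of the rational groups of weight `-1` for smooth projective varieties over finite
    -- fields
    ((∀ X n i, n < 0 → FG (T.H X n i)) ↔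
      (∀ P i, T.Arith P → i ≤ 3 → FG (T.H P (-1) i)) ∧ ∀ P i, T.Geom P → Tors (T.H P (-1) i)) ∧
    -- the same for schemes over finite fields; then all groups are finite
    ((∀ X n i, T.Char X → n < 0 → FG (T.H X n i)) ↔ ∀ P i, T.Geom P → Tors (T.H P (-1) i)) ∧
    ((∀ X n i, T.Char X → n < 0 → FG (T.H X n i)) →
      ∀ X n i, T.Char X → n < 0 → Finite (T.H X n i)) ∧
    -- a fixed weight, with a bound for the dimension
    (∀ (n : ℤ) (δ : WithBot ℕ), n < 0 →
      (∀ P i, T.Arith P → T.dim P ≤ δ → i ≤ 1 - 2 * n → FG (T.H P n i)) →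
      (∀ P i, T.Geom P → T.dim P ≤ δ → Tors (T.H P n i)) →
      ∀ X i, T.dim X ≤ δ → FG (T.H X n i)) ∧
    -- weight `n` in dimensions at most `δ + r` implies weight `n - r` in dimensions at most `δ`
    (∀ (n : ℤ) (r : ℕ) (δ : WithBot ℕ), n < 0 → (∀ X i, T.dim X ≤ δ + r → FG (T.H X n i)) →
      ∀ X i, T.dim X ≤ δ → FG (T.H X (n - r) i)) ∧
    -- finite generation descends along finite flat morphisms
    (∀ V U d, Nonempty (T.FinFlat V U d) → 0 < d → ∀ n i, n < 0 → FG (T.H V n i) →
      FG (T.H U n i)) := by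
  have hfix : ∀ (n : ℤ) (δ : WithBot ℕ), n < 0 →
      (∀ P i, T.Arith P → T.dim P ≤ δ → i ≤ 1 - 2 * n → FG (T.H P n i)) →
      (∀ P i, T.Geom P → T.dim P ≤ δ → Tors (T.H P n i)) →
      ∀ X i, T.dim X ≤ δ → FG (T.H X n i) := by
    intro n δ hn hA hG X i hX
    refine devissage_all hT cls_fg hn δ ?_ ?_ X hX i
    · intro P hP hdim i
      exact hT.degrees P n hP hn (fun i hi => hA P i hP hdim hi) i
    · intro P hP hdim i
      exact fg_of_finite (finite_of_tors (hT.geom P n i hP hn) (hG P i hP hdim))
  have hw : ∀ n : ℤ, n < 0 → ∃ r : ℕ, n = -1 - r := fun n hn =>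
    ⟨(-1 - n).toNat, by have := Int.toNat_of_nonneg (a := -1 - n) (by omega); omega⟩
  have hchar : (∀ P i, T.Geom P → Tors (T.H P (-1) i)) →
      ∀ X n i, T.Char X → n < 0 → Finite (T.H X n i) := by
    intro h X n i hX hn
    obtain ⟨r, rfl⟩ := hw n hn
    refine finite_iso (hT.shift X r (-1) i (by omega)) ?_
    exact devissage_char hT cls_finite (by omega) (fun P hP i =>
      finite_of_tors (hT.geom P (-1) i hP (by omega)) (h P i hP)) _ (hT.char_aff X r hX) _
  have hgeom : (∀ X n i, T.Char X → n < 0 → FG (T.H X n i)) →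
      ∀ P i, T.Geom P → Tors (T.H P (-1) i) := fun h P i hP =>
    tors_of_fg (hT.geom P (-1) i hP (by omega)) (h P (-1) i (hT.geom_char P hP) (by omega))
  refine ⟨⟨fun h => ⟨fun P i _ _ => h P (-1) i (by omega), hgeom fun X n i _ hn => h X n i hn⟩,
    ?_⟩, ⟨hgeom, fun h X n i hX hn => fg_of_finite (hchar h X n i hX hn)⟩,
    fun h => hchar (hgeom h), hfix, ?_, ?_⟩
  · rintro ⟨h1, h2⟩ X n i hn
    obtain ⟨r, rfl⟩ := hw n hn
    refine fg_iso (hT.shift X r (-1) i (by omega)) ?_
    exact hfix (-1) (T.dim (T.aff X r)) (by omega)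
      (fun P i hP _ hi => h1 P i hP (by omega)) (fun P i hP _ => h2 P i hP) _ _ le_rfl
  · intro n r δ hn h X i hX
    refine fg_iso (hT.shift X r n i hn.le) (h _ _ ?_)
    rw [hT.dim_aff]
    exact add_le_add_left hX _
  · rintro V U d ⟨f⟩ hd n i hn hV
    refine cls_fg.cover (T.pull f n i) d hd (fun x hx => ?_) (hT.torsion U n i hn) hV
    rw [← hT.push_pull f n i x, hx]
    exact map_zero (show T.H V n i →+ T.H U n i from T.push f n i)

end Pool.Agent.Results.MP_e93a6a_ag.RegularProjective
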